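import Pool.Agent.H10.LDV.Stmts

/-!
# LDV: LDC, window of the height, classes and assembly
-/

set_option autoImplicit false

namespace Pool.LDV

open Finset Pool.Agent.H98.ABCR Pool.SHA Pool.BL

namespace LDC65

theorem rad_pos (n : ℕ) : 0 < rad n :=
  Finset.prod_pos fun _ hp => (Nat.prime_of_mem_primeFactors hp).pos

theorem rad_mul {a b : ℕ} (h : a.Coprime b) : rad (a * b) = rad a * rad b := by
  unfold rad
  rw [h.primeFactors_mul, Finset.prod_union h.disjoint_primeFactors]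

theorem RR_eq {v : ℕ × ℕ} (hv : IsTri v) : RR v = rad v.1 * rad v.2 * rad (v.1 + v.2) := by
  obtain ⟨-, -, hc⟩ := hv
  have c1 : (v.1 * v.2).Coprime (v.1 + v.2) := by
    apply Nat.Coprime.mul_left
    · simpa using hc
    · simpa [Nat.coprime_comm] using hc
  unfold RR nn
  rw [rad_mul c1, rad_mul hc]

theorem RR_prod {v : ℕ × ℕ} (hv : IsTri v) : RR v = ∏ l, rad (coord v l) := by
  rw [RR_eq hv, Fin.prod_univ_three]
  rfl

theorem coord_pos {v : ℕ × ℕ} (hv : IsTri v) (i : Fin 3) : 0 < coord v i := by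
  obtain ⟨h1, h2, -⟩ := hv
  fin_cases i
  · exact h1
  · exact h2
  · exact Nat.add_pos_left h1 _

theorem coord_le (v : ℕ × ℕ) (i : Fin 3) : coord v i ≤ v.1 + v.2 := by
  fin_cases i
  · exact Nat.le_add_right _ _
  · exact Nat.le_add_left _ _
  · exact le_rfl

theorem coord_le_rpow {v : ℕ × ℕ} (hv : IsTri v) {X κ : ℝ} (hX : 1 ≤ X)
    (h : hh v ≤ κ * Real.log X) : ((v.1 + v.2 : ℕ) : ℝ) ≤ X ^ κ := by
  have hX0 : 0 < X := by linarith
  have h0 : (0 : ℝ) < ((v.1 + v.2 : ℕ) : ℝ) := by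
    have := coord_pos hv 2
    exact_mod_cast this
  unfold hh at h
  rw [Real.rpow_def_of_pos hX0, mul_comm (Real.log X)]
  rw [← Real.exp_log h0]
  exact Real.exp_le_exp.2 h

theorem tp_pos (J n : ℕ) : 0 < tp J n :=
  Finset.prod_pos fun _ hp =>
    pow_pos (Nat.prime_of_mem_primeFactors (Finset.mem_filter.1 hp).1).pos _

theorem small_card (B : ℝ) (F : Finset (ℕ × ℕ))
    (h : ∀ v ∈ F, ((v.1 + v.2 : ℕ) : ℝ) ≤ B) : (F.card : ℝ) ≤ ((⌊B⌋₊ : ℝ) + 1) ^ 2 := by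
  have hs : F ⊆ Finset.range (⌊B⌋₊ + 1) ×ˢ Finset.range (⌊B⌋₊ + 1) := by
    intro v hv
    have h1 : v.1 + v.2 ≤ ⌊B⌋₊ := Nat.le_floor (h v hv)
    rw [Finset.mem_product, Finset.mem_range, Finset.mem_range]
    omega
  have h2 := Finset.card_le_card hs
  rw [Finset.card_product, Finset.card_range] at h2
  have h3 : (F.card : ℝ) ≤ (((⌊B⌋₊ + 1) * (⌊B⌋₊ + 1) : ℕ) : ℝ) := by exact_mod_cast h2
  refine h3.trans (le_of_eq ?_)
  push_cast
  ring

theorem fib {α ι : Type} [Fintype ι] [DecidableEq ι] (F : Finset α) (f : α → ι → ℕ) (M : ℕ)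
    (B : ℝ) (hf : ∀ v ∈ F, ∀ i, f v i ≤ M)
    (hB : ∀ c : ι → ℕ, ((F.filter (fun v => f v = c)).card : ℝ) ≤ B) :
    (F.card : ℝ) ≤ ((M : ℝ) + 1) ^ (Fintype.card ι) * B := by
  classical
  have h1 : F.card = ∑ c ∈ Fintype.piFinset (fun _ : ι => Finset.range (M + 1)),
      (F.filter (fun v => f v = c)).card := by
    apply Finset.card_eq_sum_card_fiberwise
    intro v hv
    rw [Finset.mem_coe, Fintype.mem_piFinset]
    exact fun i => Finset.mem_range.2 (Nat.lt_succ_of_le (hf v hv i))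
  have h2 : (F.card : ℝ) = ∑ c ∈ Fintype.piFinset (fun _ : ι => Finset.range (M + 1)),
      ((F.filter (fun v => f v = c)).card : ℝ) := by
    rw [h1]
    push_cast
    rfl
  rw [h2]
  refine (Finset.sum_le_card_nsmul _ _ B fun c _ => hB c).trans (le_of_eq ?_)
  rw [Fintype.card_piFinset, nsmul_eq_mul]
  simp

theorem phi3_eq (x g : ℝ) : 2 * x - min x (min ((x + g) / 3) g) = Phi3 x g := by
  unfold Phi3
  apply le_antisymm
  · rcases min_choice x (min ((x + g) / 3) g) with h | h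
    · rw [h]
      exact le_trans (by linarith) (le_max_left _ _)
    · rw [h]
      refine le_trans ?_ (le_max_right _ _)
      rcases min_choice ((x + g) / 3) g with h' | h'
      · rw [h']
        exact le_trans (by linarith) (le_max_left _ _)
      · rw [h']
        exact le_max_right _ _
  · have a1 := min_le_left x (min ((x + g) / 3) g)
    have a2 := min_le_right x (min ((x + g) / 3) g)
    have a3 := min_le_left ((x + g) / 3) g
    have a4 := min_le_right ((x + g) / 3) g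
    refine max_le ?_ (max_le ?_ ?_) <;> linarith

theorem phi3_le {x g G η : ℝ} (h : G - η ≤ g) (hη : 0 ≤ η) : Phi3 x g ≤ Phi3 x G + η := by
  unfold Phi3
  have h1 := le_max_left x (max ((5 * x - G) / 3) (2 * x - G))
  have h2 := le_max_right x (max ((5 * x - G) / 3) (2 * x - G))
  have h3 := le_max_left ((5 * x - G) / 3) (2 * x - G)
  have h4 := le_max_right ((5 * x - G) / 3) (2 * x - G)
  refine max_le ?_ (max_le ?_ ?_) <;> linarith

/-- what is known about the members of one class -/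
def Cla (J : ℕ) (κ X η m : ℝ) (p : Fin 3 → ℕ → ℝ) (t : Fin 3 → ℝ) (a : Fin 3)
    (F : Finset (ℕ × ℕ)) : Prop :=
  ∀ v ∈ F, IsTri v ∧ hh v ≤ κ * Real.log X ∧ (∀ l, Prof J X η (p l) (coord v l)) ∧
    (∀ (i : Fin 3) (K : Finset ℕ), K ⊆ Icc 1 J →
      X ^ (max 0 (t i + ∑ e ∈ K, (e : ℝ) * p i e - η)) ≤ (kp J K (coord v i) : ℝ)) ∧
    ∀ k, a ≠ k → (coord v a : ℝ) *
      X ^ (max 0 (m - (t a + ∑ e ∈ Icc 1 J, (e : ℝ) * p a e) - 2 * η)) ≤ coord v k

/-- the two radicals -/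
theorem altT (hL : S_LAY) (hT : S_TTL) (J : ℕ) {κ η : ℝ} (hκ : 1 ≤ κ) (η0 : 0 < η) :
    ∃ C : ℝ, 1 ≤ C ∧ ∀ (X m T : ℝ) (F : Finset (ℕ × ℕ)) (p : Fin 3 → ℕ → ℝ) (t : Fin 3 → ℝ)
      (a : Fin 3), 1 ≤ X → (∀ l e, 0 ≤ p l e ∧ p l e ≤ 2) → Cla J κ X η m p t a F →
      (∃ j k, j ≠ k ∧ ∑ e ∈ Icc 1 J, p j e + ∑ e ∈ Icc 1 J, p k e ≤ T) →
      (F.card : ℝ) ≤ C * X ^ (T + 10 * η) := by
  obtain ⟨C, c1, H⟩ := hT κ η hκ η0
  refine ⟨C, c1, fun X m T F p t a hX hp hv ⟨j, k, hjk, h⟩ => ?_⟩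
  have hX0 : 0 < X := by linarith
  have x0 : ∀ l, 0 ≤ ∑ e ∈ Icc 1 J, p l e := fun l => Finset.sum_nonneg fun e _ => (hp l e).1
  have hrad : ∀ v ∈ F, ∀ l, (rad (coord v l) : ℝ) ≤ X ^ (η + ∑ e ∈ Icc 1 J, p l e) := by
    intro v hv' l
    obtain ⟨h1, -, h2, -⟩ := hv v hv'
    obtain ⟨-, -, h3, -⟩ := hL J (coord v l) (coord_pos h1 l)
    obtain ⟨h4, h5⟩ := h2 l
    rw [h3, Real.rpow_add hX0]
    push_cast
    refine mul_le_mul h4 ?_ (by positivity) (by positivity)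
    calc ∏ e ∈ Icc 1 J, (lay (coord v l) e : ℝ) ≤ ∏ e ∈ Icc 1 J, X ^ (p l e) :=
          Finset.prod_le_prod (fun _ _ => by positivity) h5
      _ = X ^ (∑ e ∈ Icc 1 J, p l e) := (Real.rpow_sum_of_pos hX0 _ _).symm
  refine (H X (η + ∑ e ∈ Icc 1 J, p j e) (η + ∑ e ∈ Icc 1 J, p k e) F j k hX
    (by have := x0 j; linarith) (by have := x0 k; linarith) hjk
    fun v hv' => ⟨(hv v hv').1, (hv v hv').2.1, hrad v hv' j, hrad v hv' k⟩).trans ?_
  refine mul_le_mul_of_nonneg_left (Real.rpow_le_rpow_of_exponent_le hX ?_) (by linarith)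
  linarith

/-- additive energy -/
theorem altF (hF : S_FTL) (J : ℕ) {κ η : ℝ} (hκ : 1 ≤ κ) (η0 : 0 < η) :
    ∃ C : ℝ, 1 ≤ C ∧ ∀ (X m T : ℝ) (F : Finset (ℕ × ℕ)) (p : Fin 3 → ℕ → ℝ) (t : Fin 3 → ℝ)
      (a : Fin 3), 1 ≤ X → (∀ l e, 0 ≤ p l e ∧ p l e ≤ 2) → Cla J κ X η m p t a F →
      (∃ (i j k : Fin 3) (e f : ℕ), i ≠ j ∧ i ≠ k ∧ j ≠ k ∧ e ∈ Icc 2 J ∧ f ∈ Icc 2 J ∧
        (∑ n ∈ Icc 1 J, p i n) / 2 + (∑ n ∈ Icc 1 J, p j n - p j e / 2) +
        (∑ n ∈ Icc 1 J, p k n - p k f / 2) ≤ T) →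
      (F.card : ℝ) ≤ C * X ^ (T + 10 * η) := by
  obtain ⟨C, c1, H⟩ := hF J κ η hκ η0
  refine ⟨C, c1, fun X m T F p t a hX hp hv ⟨i, j, k, e, f, hij, hik, hjk, he, hf, h⟩ => ?_⟩
  refine (H X η F i j k e f p hX η0.le hij hik hjk he hf hp
    fun v hv' => ⟨(hv v hv').1, (hv v hv').2.1, (hv v hv').2.2.1⟩).trans ?_
  refine mul_le_mul_of_nonneg_left (Real.rpow_le_rpow_of_exponent_le hX ?_) (by linarith)
  linarith

/-- congruences -/
theorem altC (hR : S_RN3) (hC : S_CTL) (J : ℕ) {κ η : ℝ} (hκ : 1 ≤ κ) (η0 : 0 < η) :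
    ∃ C : ℝ, 1 ≤ C ∧ ∀ (X m T : ℝ) (F : Finset (ℕ × ℕ)) (p : Fin 3 → ℕ → ℝ) (t : Fin 3 → ℝ)
      (a : Fin 3), 1 ≤ X → (∀ l e, 0 ≤ p l e ∧ p l e ≤ 2) → Cla J κ X η m p t a F →
      (∃ (i j k : Fin 3) (K : Finset ℕ), i ≠ j ∧ i ≠ k ∧ j ≠ k ∧ K ⊆ Icc 1 J ∧
        ∑ e ∈ K, p i e + (Phi3 (∑ e ∈ Icc 1 J, p j e) (t i + ∑ e ∈ K, (e : ℝ) * p i e) +
          Phi3 (∑ e ∈ Icc 1 J, p k e) (t i + ∑ e ∈ K, (e : ℝ) * p i e)) / 2 ≤ T) →
      (F.card : ℝ) ≤ C * X ^ (T + 10 * η) := by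
  obtain ⟨S, HS⟩ := hR J η η0
  obtain ⟨C, c1, H⟩ := hC J S κ η hκ η0
  refine ⟨C, c1, fun X m T F p t a hX hp hv ⟨i, j, k, K, hij, hik, hjk, hK, h⟩ => ?_⟩
  obtain ⟨G, hG⟩ : ∃ G : ℝ, G = t i + ∑ e ∈ K, (e : ℝ) * p i e := ⟨_, rfl⟩
  rw [← hG] at h
  obtain ⟨g, hg⟩ : ∃ g : ℝ, g = max 0 (G - η) := ⟨_, rfl⟩
  have g0 : 0 ≤ g := hg ▸ le_max_left _ _
  have g1 : G - η ≤ g := hg ▸ le_max_right _ _
  have hj := HS (p j) g (hp j) g0
  have hk := HS (p k) g (hp k) g0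
  refine (H X η g _ _ F i j k K p hX η0.le g0 hij hik hjk hK hp hj hk
      (fun v hv' => ⟨(hv v hv').1, (hv v hv').2.1, (hv v hv').2.2.1, ?_⟩)).trans ?_
  · rw [hg, hG]
    exact (hv v hv').2.2.2.1 i K hK
  · refine mul_le_mul_of_nonneg_left (Real.rpow_le_rpow_of_exponent_le hX ?_) (by linarith)
    have e1 := phi3_eq (∑ e ∈ Icc 1 J, p j e) g
    have e2 := phi3_eq (∑ e ∈ Icc 1 J, p k e) g
    have e3 : Phi3 (∑ e ∈ Icc 1 J, p j e) g ≤ Phi3 (∑ e ∈ Icc 1 J, p j e) G + η :=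
      phi3_le g1 η0.le
    have e4 : Phi3 (∑ e ∈ Icc 1 J, p k e) g ≤ Phi3 (∑ e ∈ Icc 1 J, p k e) G + η :=
      phi3_le g1 η0.le
    linarith

/-- ratio lattice -/
theorem altL (hLT : S_LTL) (J : ℕ) {κ η : ℝ} (hκ : 1 ≤ κ) (η0 : 0 < η) :
    ∃ C : ℝ, 1 ≤ C ∧ ∀ (X m T : ℝ) (F : Finset (ℕ × ℕ)) (p : Fin 3 → ℕ → ℝ) (t : Fin 3 → ℝ)
      (a : Fin 3), 1 ≤ X → (∀ l e, 0 ≤ p l e ∧ p l e ≤ 2) → Cla J κ X η m p t a F →
      (∃ (i j k : Fin 3) (K : Finset ℕ) (e : ℕ), i ≠ j ∧ i ≠ k ∧ j ≠ k ∧ K ⊆ Icc 1 J ∧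
        e ∈ Icc 1 J ∧ ∑ n ∈ K, p i n + (∑ n ∈ Icc 1 J, p j n - p j e) +
        (∑ n ∈ Icc 1 J, p k n - p k e) +
        max 0 (p j e + p k e - (t i + ∑ n ∈ K, (n : ℝ) * p i n)) ≤ T) →
      (F.card : ℝ) ≤ C * X ^ (T + 10 * η) := by
  obtain ⟨C, c1, H⟩ := hLT J κ η hκ η0
  refine ⟨C, c1, fun X m T F p t a hX hp hv ⟨i, j, k, K, e, hij, hik, hjk, hK, he, h⟩ => ?_⟩
  obtain ⟨G, hG⟩ : ∃ G : ℝ, G = t i + ∑ e ∈ K, (e : ℝ) * p i e := ⟨_, rfl⟩
  rw [← hG] at h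
  obtain ⟨g, hg⟩ : ∃ g : ℝ, g = max 0 (G - η) := ⟨_, rfl⟩
  have g0 : 0 ≤ g := hg ▸ le_max_left _ _
  have g1 : G - η ≤ g := hg ▸ le_max_right _ _
  refine (H X η g F i j k K e p hX η0.le g0 hij hik hjk hK he hp
      (fun v hv' => ⟨(hv v hv').1, (hv v hv').2.1, (hv v hv').2.2.1, ?_⟩)).trans ?_
  · rw [hg, hG]
    exact (hv v hv').2.2.2.1 i K hK
  · refine mul_le_mul_of_nonneg_left (Real.rpow_le_rpow_of_exponent_le hX ?_) (by linarith)
    have e1 : max 0 (p j e + p k e - g) ≤ max 0 (p j e + p k e - G) + η := by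
      have h1 := le_max_left 0 (p j e + p k e - G)
      have h2 := le_max_right 0 (p j e + p k e - G)
      refine max_le ?_ ?_ <;> linarith
    linarith

/-- real place -/
theorem altR (hRT : S_RTL) (J : ℕ) {κ η : ℝ} (hκ : 1 ≤ κ) (η0 : 0 < η) :
    ∃ C : ℝ, 1 ≤ C ∧ ∀ (X m T : ℝ) (F : Finset (ℕ × ℕ)) (p : Fin 3 → ℕ → ℝ) (t : Fin 3 → ℝ)
      (a : Fin 3), 1 ≤ X → a ≠ 2 → (∀ l e, 0 ≤ p l e ∧ p l e ≤ 2) → Cla J κ X η m p t a F →
      (∃ (k l : Fin 3) (e : ℕ), a ≠ k ∧ a ≠ l ∧ k ≠ l ∧ e ∈ Icc 1 J ∧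
        ∑ n ∈ Icc 1 J, p k n + ∑ n ∈ Icc 1 J, p l n -
        min (p l e) (m - (t a + ∑ n ∈ Icc 1 J, (n : ℝ) * p a n)) ≤ T) →
      (F.card : ℝ) ≤ C * X ^ (T + 10 * η) := by
  obtain ⟨C, c1, H⟩ := hRT J κ η hκ η0
  refine ⟨C, c1, fun X m T F p t a hX ha hp hv ⟨k, l, e, hak, hal, hkl, he, h⟩ => ?_⟩
  obtain ⟨G, hG⟩ : ∃ G : ℝ, G = t a + ∑ e ∈ Icc 1 J, (e : ℝ) * p a e := ⟨_, rfl⟩
  rw [← hG] at h
  obtain ⟨d, hd⟩ : ∃ d : ℝ, d = max 0 (m - G - 2 * η) := ⟨_, rfl⟩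
  have d0 : 0 ≤ d := hd ▸ le_max_left _ _
  have d1 : m - G - 2 * η ≤ d := hd ▸ le_max_right _ _
  refine (H X η d F a k l e p hX η0.le d0 ha hak hal hkl he hp
      (fun v hv' => ⟨(hv v hv').1, (hv v hv').2.1, (hv v hv').2.2.1, ?_⟩)).trans ?_
  · rw [hd, hG]
    exact (hv v hv').2.2.2.2 k hak
  · refine mul_le_mul_of_nonneg_left (Real.rpow_le_rpow_of_exponent_le hX ?_) (by linarith)
    have e1 : max 0 (p l e - d) ≤ p l e - min (p l e) (m - G) + 2 * η := by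
      have h1 := min_le_left (p l e) (m - G)
      have h2 := min_le_right (p l e) (m - G)
      refine max_le ?_ ?_ <;> linarith
    linarith

end LDC65

open LDC65

theorem ldc_thm (hL : S_LAY) (hT : S_TTL) (hF : S_FTL) (hC : S_CTL) (hR : S_RN3) (hLT : S_LTL)
    (hRT : S_RTL) (hE : S_CHS) : S_LDC := by
  classical
  intro κ0 ε hκ0 hε
  obtain ⟨η, hη⟩ : ∃ η : ℝ, η = min (ε / (200 * (κ0 + 1))) (1 / 100) := ⟨_, rfl⟩
  have η0 : 0 < η := by rw [hη]; exact lt_min (by positivity) (by norm_num)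
  have η1 : η ≤ 1 / 100 := hη ▸ min_le_right _ _
  have η2 : η * (200 * (κ0 + 1)) ≤ ε := by
    rw [← le_div_iff₀ (by positivity)]
    exact hη ▸ min_le_left _ _
  obtain ⟨κ, hκd⟩ : ∃ κ : ℝ, κ = κ0 + 1 := ⟨_, rfl⟩
  have hκ : 1 ≤ κ := by linarith
  obtain ⟨J, hJ⟩ : ∃ J : ℕ, J = ⌈κ / η⌉₊ + 5 := ⟨_, rfl⟩
  have J5 : 5 ≤ J := by omega
  have JR : (5 : ℝ) ≤ J := by exact_mod_cast J5
  have Jκ : κ ≤ η * (J + 1) := by
    have h1 : κ / η ≤ J := by
      rw [hJ]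
      push_cast
      have := Nat.le_ceil (κ / η)
      linarith
    rw [div_le_iff₀ η0] at h1
    nlinarith
  obtain ⟨δ, hδ⟩ : ∃ δ : ℝ, δ = η / (4 * (J : ℝ) ^ 2) := ⟨_, rfl⟩
  have δ0 : 0 < δ := by rw [hδ]; positivity
  have δJ : δ * (J : ℝ) ^ 2 = η / 4 := by
    rw [hδ]
    field_simp
  have δJ1 : 3 * J * δ ≤ η := by nlinarith
  have δ1 : δ ≤ η / 4 := by nlinarith
  obtain ⟨C1, c1, H1⟩ := altT hL hT J hκ η0
  obtain ⟨C2, c2, H2⟩ := altF hF J hκ η0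
  obtain ⟨C3, c3, H3⟩ := altC hR hC J hκ η0
  obtain ⟨C4, c4, H4⟩ := altL hLT J hκ η0
  obtain ⟨C5, c5, H5⟩ := altR hRT J hκ η0
  obtain ⟨D, hD⟩ : ∃ D : ℝ, D = C1 + C2 + C3 + C4 + C5 := ⟨_, rfl⟩
  have D1 : 1 ≤ D := by linarith
  obtain ⟨X0, hX0⟩ : ∃ X0 : ℝ, X0 = (4 : ℝ) ^ (4 / η) := ⟨_, rfl⟩
  obtain ⟨M, hM⟩ : ∃ M : ℕ, M = ⌈(κ + 1) / δ⌉₊ := ⟨_, rfl⟩
  have X01 : 1 < X0 := by rw [hX0]; exact Real.one_lt_rpow (by norm_num) (by positivity)
  obtain ⟨N, hN⟩ : ∃ N : ℕ, N = Fintype.card (Fin 3 × Fin (J + 1)) := ⟨_, rfl⟩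
  have CM : 1 ≤ ((M : ℝ) + 1) ^ N := one_le_pow₀ (by have := Nat.cast_nonneg (α := ℝ) M; linarith)
  refine ⟨η / 4, ((M : ℝ) + 1) ^ N * D + ((⌊X0 ^ κ⌋₊ : ℝ) + 1) ^ 2, by positivity, ?_, ?_⟩
  · have h1 : 1 ≤ ((M : ℝ) + 1) ^ N * D := by nlinarith
    have h2 : 0 ≤ ((⌊X0 ^ κ⌋₊ : ℝ) + 1) ^ 2 := by positivity
    linarith
  intro X m F a hX hm1 hm2 ha2 hv0
  have Xp : 0 < X := by linarith
  have hlX : 0 ≤ Real.log X := Real.log_nonneg hX
  obtain ⟨T, hTd⟩ : ∃ T : ℝ, T = max (1 - m) (3 / 5) := ⟨_, rfl⟩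
  have T0 : 3 / 5 ≤ T := hTd ▸ le_max_right _ _
  rw [← hTd]
  have hv : ∀ v ∈ F, IsTri v ∧ (RR v : ℝ) ≤ X ∧ hh v ≤ κ * Real.log X := fun v hv' =>
    ⟨(hv0 v hv').1, (hv0 v hv').2.1, (hv0 v hv').2.2.2.1.trans
      (mul_le_mul_of_nonneg_right (by linarith) hlX)⟩
  have hXε : 1 ≤ X ^ (T + ε) := Real.one_le_rpow hX (by linarith)
  have hc : ∀ v ∈ F, ((v.1 + v.2 : ℕ) : ℝ) ≤ X ^ κ := fun v hv' =>
    coord_le_rpow (hv v hv').1 hX (hv v hv').2.2
  rcases lt_or_ge X X0 with hlt | hge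
  · -- small `X`
    have h1 : (F.card : ℝ) ≤ ((⌊X0 ^ κ⌋₊ : ℝ) + 1) ^ 2 := by
      apply small_card
      intro v hv'
      exact (hc v hv').trans (Real.rpow_le_rpow Xp.le hlt.le (by linarith))
    have h2 : 0 ≤ ((M : ℝ) + 1) ^ N * D := mul_nonneg (by positivity) (by linarith)
    calc (F.card : ℝ) ≤ (((M : ℝ) + 1) ^ N * D + ((⌊X0 ^ κ⌋₊ : ℝ) + 1) ^ 2) * 1 := by
          linarith
      _ ≤ _ := by gcongr
  -- large `X`
  have X1 : 1 < X := by linarith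
  have hlXp : 0 < Real.log X := Real.log_pos X1
  have hl2 : Real.logb X 2 ≤ η / 4 := by
    rw [Real.logb_le_iff_le_rpow X1 (by norm_num)]
    calc (2 : ℝ) ≤ 4 := by norm_num
      _ = X0 ^ (η / 4) := by
          rw [hX0, ← Real.rpow_mul (by norm_num)]
          rw [show 4 / η * (η / 4) = 1 by field_simp, Real.rpow_one]
      _ ≤ X ^ (η / 4) := Real.rpow_le_rpow (by linarith) hge (by positivity)
  have laypos : ∀ v ∈ F, ∀ l e, (0 : ℝ) < lay (coord v l) e := fun v hv' l e => by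
    exact_mod_cast ((hL J (coord v l) (coord_pos (hv v hv').1 l)).2.2.2.2 e).1
  have tppos : ∀ (v : ℕ × ℕ) (l : Fin 3), (0 : ℝ) < tp J (coord v l) := fun v l => by
    exact_mod_cast tp_pos J (coord v l)
  have cpos : ∀ v ∈ F, ∀ l, (0 : ℝ) < coord v l := fun v hv' l => by
    exact_mod_cast coord_pos (hv v hv').1 l
  have lay0 : ∀ v ∈ F, ∀ l e, 0 ≤ Real.logb X (lay (coord v l) e) := fun v hv' l e =>
    Real.logb_nonneg X1 (by have := laypos v hv' l e; exact_mod_cast this)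
  have tp0 : ∀ (v : ℕ × ℕ) (l : Fin 3), 0 ≤ Real.logb X (tp J (coord v l)) := fun v l =>
    Real.logb_nonneg X1 (by exact_mod_cast tp_pos J (coord v l))
  -- sum of the logarithms of the layers
  have hsum : ∀ v ∈ F, ∑ l, ∑ e ∈ Icc 1 J, Real.logb X (lay (coord v l) e) ≤ 1 := by
    intro v hv'
    have h1 : ∏ l, ∏ e ∈ Icc 1 J, (lay (coord v l) e : ℝ) ≤ X := by
      refine le_trans ?_ (hv v hv').2.1
      rw [RR_prod (hv v hv').1]
      push_cast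
      refine Finset.prod_le_prod (fun _ _ => by positivity) fun l _ => ?_
      rw [(hL J (coord v l) (coord_pos (hv v hv').1 l)).2.2.1]
      push_cast
      refine le_mul_of_one_le_left (by positivity) ?_
      exact_mod_cast rad_pos _
    have h2 : Real.logb X (∏ l, ∏ e ∈ Icc 1 J, (lay (coord v l) e : ℝ)) ≤ 1 := by
      rw [Real.logb_le_iff_le_rpow X1 (Finset.prod_pos fun l _ => Finset.prod_pos fun e _ =>
        laypos v hv' l e), Real.rpow_one]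
      exact h1
    rw [Real.logb_prod _ _ fun l _ => (Finset.prod_pos fun e _ => laypos v hv' l e).ne'] at h2
    refine le_trans (le_of_eq (Finset.sum_congr rfl fun l _ => ?_)) h2
    rw [Real.logb_prod _ _ fun e _ => (laypos v hv' l e).ne']
  have hlay1 : ∀ v ∈ F, ∀ l, ∀ e ∈ Icc 1 J, Real.logb X (lay (coord v l) e) ≤ 1 := by
    intro v hv' l e he
    refine le_trans ?_ (hsum v hv')
    refine le_trans ?_ (Finset.single_le_sum (f := fun l => ∑ e ∈ Icc 1 J,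
      Real.logb X (lay (coord v l) e)) (fun l _ => Finset.sum_nonneg fun e _ => lay0 v hv' l e)
      (Finset.mem_univ l))
    exact Finset.single_le_sum (f := fun e => Real.logb X (lay (coord v l) e))
      (fun e _ => lay0 v hv' l e) he
  -- logarithm of `kp`
  have hkp : ∀ v ∈ F, ∀ (l : Fin 3) (K : Finset ℕ), Real.logb X (kp J K (coord v l)) =
      Real.logb X (tp J (coord v l)) + ∑ e ∈ K, (e : ℝ) * Real.logb X (lay (coord v l) e) := by
    intro v hv' l K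
    unfold kp
    push_cast
    rw [Real.logb_mul (tppos v l).ne'
      (Finset.prod_pos fun e _ => pow_pos (laypos v hv' l e) _).ne',
      Real.logb_prod _ _ fun e _ => (pow_pos (laypos v hv' l e) _).ne']
    congr 1
    exact Finset.sum_congr rfl fun e _ => by rw [Real.logb_pow]
  have hcl : ∀ v ∈ F, ∀ l, Real.logb X (coord v l) =
      Real.logb X (tp J (coord v l)) + ∑ e ∈ Icc 1 J, (e : ℝ) * Real.logb X (lay (coord v l) e) := by
    intro v hv' l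
    have h1 := hkp v hv' l (Icc 1 J)
    rwa [(hL J (coord v l) (coord_pos (hv v hv').1 l)).1] at h1
  -- the height
  have hup : ∀ v ∈ F, ∀ l, Real.logb X (coord v l) ≤ m + η / 4 := by
    intro v hv' l
    have h1 : Real.log (coord v l) ≤ hh v := by
      unfold hh
      exact Real.log_le_log (cpos v hv' l) (by exact_mod_cast coord_le v l)
    unfold Real.logb
    rw [div_le_iff₀ hlXp]
    exact h1.trans (hv0 v hv').2.2.2.1
  have hlo : ∀ v ∈ F, ∀ l, a ≠ l → m - η / 4 ≤ Real.logb X (coord v l) := by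
    intro v hv' l hal
    have h0 : v.1 + v.2 ≤ 2 * coord v l := by
      have h2 := (hv0 v hv').2.2.2.2 l
      clear * - h2 hal ha2
      fin_cases a <;> fin_cases l <;> first
        | exact absurd rfl hal
        | exact absurd rfl ha2
        | (simp only [coord] at h2 ⊢; simp at h2 ⊢; omega)
    have h1 : hh v ≤ Real.log (2 * (coord v l : ℝ)) := by
      unfold hh
      refine Real.log_le_log ?_ (by exact_mod_cast h0)
      exact_mod_cast coord_pos (hv v hv').1 2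
    have h2 : m * Real.log X ≤ Real.log (2 * (coord v l : ℝ)) := (hv0 v hv').2.2.1.trans h1
    have h3 : m ≤ Real.logb X (2 * (coord v l : ℝ)) := by
      unfold Real.logb
      rwa [le_div_iff₀ hlXp]
    rw [Real.logb_mul (by norm_num) (cpos v hv' l).ne'] at h3
    linarith
  have hmk : m + η / 4 ≤ κ := by linarith
  have htp1 : ∀ v ∈ F, ∀ l, Real.logb X (tp J (coord v l)) ≤ κ := by
    intro v hv' l
    have h1 := hcl v hv' l
    have h2 : 0 ≤ ∑ e ∈ Icc 1 J, (e : ℝ) * Real.logb X (lay (coord v l) e) :=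
      Finset.sum_nonneg fun e _ => mul_nonneg (Nat.cast_nonneg _) (lay0 v hv' l e)
    have h3 := hup v hv' l
    linarith
  -- classes
  obtain ⟨f, hf⟩ : ∃ f : ℕ × ℕ → Fin 3 × Fin (J + 1) → ℕ, ∀ v l (e : Fin (J + 1)),
      f v (l, e) = if (e : ℕ) = 0 then ⌊Real.logb X (tp J (coord v l)) / δ⌋₊
        else ⌈Real.logb X (lay (coord v l) e) / δ⌉₊ :=
    ⟨fun v i => if (i.2 : ℕ) = 0 then ⌊Real.logb X (tp J (coord v i.1)) / δ⌋₊
        else ⌈Real.logb X (lay (coord v i.1) i.2) / δ⌉₊, fun _ _ _ => rfl⟩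
  have hfM : ∀ v ∈ F, ∀ i, f v i ≤ M := by
    rintro v hv' ⟨l, e⟩
    rw [hf, hM]
    split_ifs with he
    · refine (Nat.floor_le_ceil _).trans (Nat.ceil_le_ceil ?_)
      have := htp1 v hv' l
      gcongr
      linarith
    · apply Nat.ceil_le_ceil
      have := hlay1 v hv' l e (Finset.mem_Icc.2 ⟨Nat.one_le_iff_ne_zero.2 he, by omega⟩)
      gcongr
      linarith
  obtain ⟨B, hB⟩ : ∃ B : ℝ, B = T + 20 * (κ0 + 1) * η + 10 * η := ⟨_, rfl⟩
  have key := fib F f M (D * X ^ B) hfM ?_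
  · have h1 : X ^ B ≤ X ^ (T + ε) := by
      refine Real.rpow_le_rpow_of_exponent_le hX ?_
      rw [hB]
      nlinarith
    calc (F.card : ℝ) ≤ ((M : ℝ) + 1) ^ N * (D * X ^ B) := by
          rw [hN]; exact key
      _ = ((M : ℝ) + 1) ^ N * D * X ^ B := by ring
      _ ≤ ((M : ℝ) + 1) ^ N * D * X ^ (T + ε) :=
          mul_le_mul_of_nonneg_left h1 (mul_nonneg (by positivity) (by linarith))
      _ ≤ (((M : ℝ) + 1) ^ N * D + ((⌊X0 ^ κ⌋₊ : ℝ) + 1) ^ 2) * X ^ (T + ε) := by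
          gcongr
          exact le_add_of_nonneg_right (by positivity)
  -- one class
  intro c
  rcases (F.filter (fun v => f v = c)).eq_empty_or_nonempty with hem | ⟨w, hw⟩
  · rw [hem]
    simp only [Finset.card_empty, Nat.cast_zero]
    exact mul_nonneg (by linarith) (Real.rpow_pos_of_pos Xp _).le
  obtain ⟨hwF, hwc⟩ := Finset.mem_filter.1 hw
  have heq : ∀ v ∈ F.filter (fun v => f v = c), f v = f w := fun v hv' => by
    rw [(Finset.mem_filter.1 hv').2, hwc]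
  obtain ⟨p, hp⟩ : ∃ p : Fin 3 → ℕ → ℝ, ∀ l e, p l e = if e ∈ Icc 1 J then
      δ * (⌈Real.logb X (lay (coord w l) e) / δ⌉₊ : ℝ) else 0 := ⟨_, fun _ _ => rfl⟩
  obtain ⟨t, ht⟩ : ∃ t : Fin 3 → ℝ, ∀ l, t l = δ * (⌊Real.logb X (tp J (coord w l)) / δ⌋₊ : ℝ) :=
    ⟨_, fun _ => rfl⟩
  have hpe : ∀ v ∈ F.filter (fun v => f v = c), ∀ l, ∀ e ∈ Icc 1 J,
      Real.logb X (lay (coord v l) e) ≤ p l e ∧ p l e ≤ Real.logb X (lay (coord v l) e) + δ := by
    intro v hv' l e he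
    have hvF := (Finset.mem_filter.1 hv').1
    obtain ⟨he1, he2⟩ := Finset.mem_Icc.1 he
    have h1 := congrFun (heq v hv') (l, ⟨e, by omega⟩)
    rw [hf, hf, if_neg (by show e ≠ 0; omega), if_neg (by show e ≠ 0; omega)] at h1
    change ⌈Real.logb X (lay (coord v l) e) / δ⌉₊ = ⌈Real.logb X (lay (coord w l) e) / δ⌉₊ at h1
    rw [hp, if_pos he, ← h1]
    have h2 := Nat.le_ceil (Real.logb X (lay (coord v l) e) / δ)
    have h3 := Nat.ceil_lt_add_one (div_nonneg (lay0 v hvF l e) δ0.le)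
    rw [div_le_iff₀ δ0] at h2
    constructor
    · linarith
    · have h4 : δ * (⌈Real.logb X (lay (coord v l) e) / δ⌉₊ : ℝ) ≤
          δ * (Real.logb X (lay (coord v l) e) / δ + 1) := by gcongr
      rw [mul_add, mul_div_cancel₀ _ δ0.ne', mul_one] at h4
      exact h4
  have hte : ∀ v ∈ F.filter (fun v => f v = c), ∀ l,
      t l ≤ Real.logb X (tp J (coord v l)) ∧ Real.logb X (tp J (coord v l)) ≤ t l + δ := by
    intro v hv' l
    have h1 := congrFun (heq v hv') (l, ⟨0, by omega⟩)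
    rw [hf, hf, if_pos rfl, if_pos rfl] at h1
    rw [ht, ← h1]
    have h2 := Nat.floor_le (div_nonneg (tp0 v l) δ0.le)
    have h3 := Nat.lt_floor_add_one (Real.logb X (tp J (coord v l)) / δ)
    rw [le_div_iff₀ δ0] at h2
    rw [div_lt_iff₀ δ0] at h3
    constructor
    · linarith
    · linarith
  have hp2 : ∀ l e, 0 ≤ p l e ∧ p l e ≤ 2 := by
    intro l e
    by_cases he : e ∈ Icc 1 J
    · have h1 := hpe w hw l e he
      have h2 := lay0 w hwF l e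
      have h3 := hlay1 w hwF l e he
      exact ⟨by linarith, by linarith⟩
    · rw [hp, if_neg he]
      exact ⟨le_rfl, by norm_num⟩
  have ht0 : ∀ l, 0 ≤ t l := by
    intro l
    rw [ht]
    positivity
  -- comparison of the gains
  have hlow : ∀ v ∈ F.filter (fun v => f v = c), ∀ l,
      Real.logb X (coord v l) ≤ t l + ∑ e ∈ Icc 1 J, (e : ℝ) * p l e + δ := by
    intro v hv' l
    rw [hcl v (Finset.mem_filter.1 hv').1 l]
    have h5 : ∑ e ∈ Icc 1 J, (e : ℝ) * Real.logb X (lay (coord v l) e) ≤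
        ∑ e ∈ Icc 1 J, (e : ℝ) * p l e :=
      Finset.sum_le_sum fun e he => mul_le_mul_of_nonneg_left (hpe v hv' l e he).1 (Nat.cast_nonneg _)
    have h6 := (hte v hv' l).2
    linarith
  have hhigh : ∀ v ∈ F.filter (fun v => f v = c), ∀ (l : Fin 3) (K : Finset ℕ), K ⊆ Icc 1 J →
      t l + ∑ e ∈ K, (e : ℝ) * p l e ≤ Real.logb X (tp J (coord v l)) +
        ∑ e ∈ K, (e : ℝ) * Real.logb X (lay (coord v l) e) + η / 4 := by
    intro v hv' i K hK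
    have h2 := (hte v hv' i).1
    have h3 : ∑ e ∈ K, (e : ℝ) * p i e ≤
        ∑ e ∈ K, (e : ℝ) * Real.logb X (lay (coord v i) e) + δ * (J : ℝ) ^ 2 := by
      calc ∑ e ∈ K, (e : ℝ) * p i e ≤
          ∑ e ∈ K, ((e : ℝ) * Real.logb X (lay (coord v i) e) + J * δ) := by
            refine Finset.sum_le_sum fun e he => ?_
            have h4 := (hpe v hv' i e (hK he)).2
            have h5 : (e : ℝ) ≤ J := by exact_mod_cast (Finset.mem_Icc.1 (hK he)).2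
            have h6 : (0 : ℝ) ≤ e := Nat.cast_nonneg _
            nlinarith
        _ = ∑ e ∈ K, (e : ℝ) * Real.logb X (lay (coord v i) e) + K.card * (J * δ) := by
            rw [Finset.sum_add_distrib, Finset.sum_const, nsmul_eq_mul]
        _ ≤ ∑ e ∈ K, (e : ℝ) * Real.logb X (lay (coord v i) e) + J * (J * δ) := by
            have h7 : (K.card : ℝ) ≤ J := by
              have := Finset.card_le_card hK
              rw [Nat.card_Icc] at this
              exact_mod_cast (by omega : K.card ≤ J)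
            gcongr
        _ = _ := by ring
    linarith
  have hG1 : ∀ l, t l + ∑ e ∈ Icc 1 J, (e : ℝ) * p l e ≤ m + η := by
    intro l
    have h1 := hhigh w hw l (Icc 1 J) subset_rfl
    rw [← hcl w hwF l] at h1
    have h2 := hup w hwF l
    linarith
  have hG2 : ∀ l, a ≠ l → m - η ≤ t l + ∑ e ∈ Icc 1 J, (e : ℝ) * p l e := by
    intro l hal
    have h1 := hlow w hw l
    have h2 := hlo w hwF l hal
    linarith
  have hs1 : ∑ l, ∑ e ∈ Icc 1 J, p l e ≤ 1 + η := by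
    calc ∑ l, ∑ e ∈ Icc 1 J, p l e ≤ ∑ l, ∑ e ∈ Icc 1 J, (Real.logb X (lay (coord w l) e) + δ) :=
          Finset.sum_le_sum fun l _ => Finset.sum_le_sum fun e he => (hpe w hw l e he).2
      _ = ∑ l, ∑ e ∈ Icc 1 J, Real.logb X (lay (coord w l) e) + 3 * J * δ := by
          simp only [Finset.sum_add_distrib, Finset.sum_const, Nat.card_Icc, Finset.card_univ,
            Fintype.card_fin, nsmul_eq_mul]
          push_cast
          ring_nf
      _ ≤ 1 + η := by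
          have := hsum w hwF
          linarith
  have hcla : Cla J κ X η m p t a (F.filter (fun v => f v = c)) := by
    intro v hv'
    have hvF := (Finset.mem_filter.1 hv').1
    refine ⟨(hv v hvF).1, (hv v hvF).2.2, fun l => ⟨?_, fun e he => ?_⟩, fun i K hK => ?_,
      fun k hak => ?_⟩
    · have h1 : ((rad (tp J (coord v l)) : ℝ)) ^ (J + 1) ≤ (X ^ η) ^ (J + 1) := by
        have h2 : ((rad (tp J (coord v l)) ^ (J + 1) : ℕ) : ℝ) ≤ X ^ κ := by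
          refine le_trans ?_ (hc v hvF)
          exact_mod_cast le_trans (hL J (coord v l) (coord_pos (hv v hvF).1 l)).2.1 (coord_le v l)
        rw [← Real.rpow_natCast (X ^ η), ← Real.rpow_mul Xp.le]
        push_cast at h2 ⊢
        exact h2.trans (Real.rpow_le_rpow_of_exponent_le hX Jκ)
      exact le_of_pow_le_pow_left₀ (by omega) (by positivity) h1
    · have h1 := (hpe v hv' l e he).1
      rwa [Real.logb_le_iff_le_rpow X1 (laypos v hvF l e)] at h1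
    · have kpp : (0 : ℝ) < kp J K (coord v i) := by
        unfold kp
        push_cast
        exact mul_pos (tppos v i) (Finset.prod_pos fun e _ => pow_pos (laypos v hvF i e) _)
      rw [← Real.le_logb_iff_rpow_le X1 kpp]
      refine max_le (Real.logb_nonneg X1 ?_) ?_
      · have : 0 < kp J K (coord v i) := by exact_mod_cast kpp
        exact_mod_cast this
      · rw [hkp v hvF i K]
        have := hhigh v hv' i K hK
        linarith
    · rcases le_total 0 (m - (t a + ∑ e ∈ Icc 1 J, (e : ℝ) * p a e) - 2 * η) with h0 | h0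
      · rw [max_eq_right h0]
        have h1 := hlow v hv' a
        have h2 := hlo v hvF k hak
        have h3 : Real.logb X (coord v a) + (m - (t a + ∑ e ∈ Icc 1 J, (e : ℝ) * p a e) - 2 * η) ≤
            Real.logb X (coord v k) := by linarith
        rw [Real.le_logb_iff_rpow_le X1 (cpos v hvF k), Real.rpow_add Xp,
          Real.rpow_logb Xp X1.ne' (cpos v hvF a)] at h3
        exact h3
      · rw [max_eq_left h0, Real.rpow_zero, mul_one]
        exact_mod_cast (hv0 v hvF).2.2.2.2 k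
  obtain ⟨Fc, hFc⟩ : ∃ Fc : Finset (ℕ × ℕ), Fc = F.filter (fun v => f v = c) := ⟨_, rfl⟩
  rw [← hFc] at hcla ⊢
  have mono : ∀ C' : ℝ, 1 ≤ C' → C' ≤ D → (Fc.card : ℝ) ≤ C' * X ^ (T + 20 * (κ0 + 1) * η + 10 * η) →
      (Fc.card : ℝ) ≤ D * X ^ B := by
    intro C' _ h1 h2
    rw [hB]
    exact h2.trans (mul_le_mul_of_nonneg_right h1 (Real.rpow_pos_of_pos Xp _).le)
  have halt := hE J κ0 m η p t a J5 hκ0 hm1 hm2 η0.le η1 (fun l e => (hp2 l e).1) ht0 hs1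
    (fun i hi => ⟨hG2 i hi.symm, hG1 i⟩) (hG1 a)
  rw [← hTd] at halt
  rcases halt with h | h | h | h | h
  · exact mono C1 c1 (by linarith) (H1 X m _ Fc p t a hX hp2 hcla h)
  · exact mono C2 c2 (by linarith) (H2 X m _ Fc p t a hX hp2 hcla h)
  · exact mono C3 c3 (by linarith) (H3 X m _ Fc p t a hX hp2 hcla h)
  · exact mono C4 c4 (by linarith) (H4 X m _ Fc p t a hX hp2 hcla h)
  · exact mono C5 c5 (by linarith) (H5 X m _ Fc p t a hX ha2 hp2 hcla h)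

end Pool.LDV
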